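import Pool.Agent.H2.Jor1

namespace Pool.Agent.Results.MP_de5a23_al.NoContig

open Pool.Agent.H2.Jor

theorem result (k A : Type) [Field k] [CommRing A] [Algebra k A] [IsLocalRing A]
    [Module.Finite k A] (l : A) (hl : l ∈ IsLocalRing.maximalIdeal A)
    (hP : IsJordanType k l (Pc (hf k A))) : Unimodal (hf k A) :=
  (main hl hP fun _ => le_rfl).1

end Pool.Agent.Results.MP_de5a23_al.NoContig
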